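import Pool.Agent.H109.Main
import Pool.Agent.H109.Link

/-!
Largest minimal percolating sets for 2-neighbour bootstrap percolation on grids: the limit of
`E(n) / n ^ 2` is `2 / 15`, and `15 E(m, n) ≤ 2 (m + 3) (n + 3) - 10` for all `m, n ≥ 2`.
-/

set_option autoImplicit false

namespace Pool.Agent.Results.MP_849d81_co.LimitTwoFifteenths

/-- Two sites of the `m × n` grid are adjacent when they differ by `1` in exactly one coordinate. -/
def Adj {m n : ℕ} (u v : Fin m × Fin n) : Prop :=
  (u.1 = v.1 ∧ (u.2.val + 1 = v.2.val ∨ v.2.val + 1 = u.2.val)) ∨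
  (u.2 = v.2 ∧ (u.1.val + 1 = v.1.val ∨ v.1.val + 1 = u.1.val))

/-- One step: the infected sites stay infected, and a site with at least two infected neighbours
becomes infected. -/
def step {m n : ℕ} (A : Set (Fin m × Fin n)) : Set (Fin m × Fin n) :=
  {v | v ∈ A ∨ ∃ u w, u ≠ w ∧ Adj u v ∧ Adj w v ∧ u ∈ A ∧ w ∈ A}

/-- Every site is eventually infected. -/
def Percolates {m n : ℕ} (A : Set (Fin m × Fin n)) : Prop := ∀ v, ∃ t : ℕ, v ∈ step^[t] A

/-- `A` percolates and no proper subset of `A` percolates. -/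
def MinimalPercolating {m n : ℕ} (A : Finset (Fin m × Fin n)) : Prop :=
  Percolates (A : Set (Fin m × Fin n)) ∧
    ∀ B : Finset (Fin m × Fin n), B ⊂ A → ¬ Percolates (B : Set (Fin m × Fin n))

/-- `E m n`: the largest cardinality of a minimal percolating set of the `m × n` grid. -/
noncomputable def E (m n : ℕ) : ℕ :=
  sSup {k : ℕ | ∃ A : Finset (Fin m × Fin n), MinimalPercolating A ∧ A.card = k}

theorem E_eq (m n : ℕ) : E m n = Pool.Agent.H109.GE m n := rfl

/-- **Main theorem.** The largest size `E(n) = E n n` of a minimal percolating set of the `n × n` grid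
satisfies `E(n) / n ^ 2 → 2 / 15`; and for all `m, n ≥ 2` the largest size of a minimal percolating set of
the `m × n` grid satisfies `15 E(m, n) ≤ 2 (m + 3) (n + 3) - 10`. -/
theorem result :
    Filter.Tendsto (fun n : ℕ => (E n n : ℝ) / (n : ℝ) ^ 2) Filter.atTop (nhds (2 / 15)) ∧
    ∀ m n : ℕ, 2 ≤ m → 2 ≤ n → 15 * E m n + 10 ≤ 2 * (m + 3) * (n + 3) :=
  ⟨Pool.Agent.H109.GE_tendsto fun _ _ h => Pool.Agent.H109.main_bound h,
    fun m n hm hn => Pool.Agent.H109.GE_le (fun _ _ h => Pool.Agent.H109.main_bound h) m n hm hn⟩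

end Pool.Agent.Results.MP_849d81_co.LimitTwoFifteenths
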